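import Pool.Agent.Helper78.Net.HubFinal

set_option autoImplicit false

open Pool.Agent.Helper78.Net

namespace Pool.Agent.Results.MP_f4bed7_co.NetsQ1

/-- Question Q1, answered negatively: for every `ε > 0` there are `k ≥ 1`, an infinite connected
graph `H` of maximal degree at most `9` with Cheeger constant `> 1`, and a `k`-net graph of `H`
with Cheeger constant `< ε`. -/
theorem result : ∀ ε : ENNReal, 0 < ε → ∃ k : ℕ, 1 ≤ k ∧ ∃ (V : Type) (H : SimpleGraph V),
    Infinite V ∧ H.Connected ∧ (∀ v, (H.neighborSet v).encard ≤ 9) ∧ 1 < cheeger H ∧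
      ∃ S : Set V, IsNet H k S ∧ cheeger (netGraph H k S) < ε := by
  intro ε hε
  obtain ⟨q, hq⟩ := ENNReal.exists_inv_two_pow_lt hε.ne'
  obtain ⟨S, hS, hle⟩ := hub_net q
  exact ⟨8 * q + 24, by omega, Vt (nn q), G (nn q), infinite_Vt (nn q), connected_G (nn q),
    degree_le (nn q), one_lt_cheeger_G (nn q), S, hS, lt_of_le_of_lt hle hq⟩

end Pool.Agent.Results.MP_f4bed7_co.NetsQ1
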