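import Pool.Agent.Helper78.Net.TreeNet

set_option autoImplicit false

open Filter Topology Pool.Agent.Helper78.Net

universe u

namespace Pool.Agent.Results.MP_f4bed7_co.TreeNets

/-- The infimum of the Cheeger constants of all `k`-net graphs of `G`. -/
noncomputable def netInf {V : Type u} (G : SimpleGraph V) (k : ℕ) : ENNReal :=
  ⨅ (S : Set V) (_ : IsNet G k S), cheeger (netGraph G k S)

/-- Question Q2, answered positively: for the `d`-regular tree, `d ≥ 3`, the Cheeger constants of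
all `k`-net graphs are at least `(d-1)^⌈(k+2)/2⌉ - 2`; so the infimum over all `k ≥ 1` and all
`k`-nets is positive, and the infimum over `k`-nets tends to infinity with `k`. -/
theorem result (d : ℕ) (hd : 3 ≤ d) (V : Type u) (T : SimpleGraph V) (hT : T.IsTree)
    (hreg : ∀ v, (T.neighborSet v).ncard = d) :
    (∀ k : ℕ, 1 ≤ k → (((d - 1) ^ ((k + 3) / 2) - 2 : ℕ) : ENNReal) ≤ netInf T k) ∧
      0 < (⨅ (k : ℕ) (_ : 1 ≤ k), netInf T k) ∧
      Tendsto (fun k => netInf T k) atTop (𝓝 ⊤) := by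
  have h1 : ∀ k : ℕ, 1 ≤ k → (((d - 1) ^ ((k + 3) / 2) - 2 : ℕ) : ENNReal) ≤ netInf T k :=
    fun k hk => le_iInf₂ (fun S hS => tree_bound hT hd hreg hk hS)
  refine ⟨h1, ?_, ?_⟩
  · have h2 : (1 : ENNReal) ≤ ⨅ (k : ℕ) (_ : 1 ≤ k), netInf T k := by
      refine le_iInf₂ (fun k hk => le_trans ?_ (h1 k hk))
      have h3 : 1 ≤ (d - 1) ^ ((k + 3) / 2) - 2 := by
        have h4 : 2 ^ 2 ≤ (d - 1) ^ ((k + 3) / 2) :=
          le_trans (Nat.pow_le_pow_right (by norm_num) (by omega : 2 ≤ (k + 3) / 2))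
            (Nat.pow_le_pow_left (by omega) _)
        omega
      exact_mod_cast h3
    exact lt_of_lt_of_le (by norm_num) h2
  · have h2 : Tendsto (fun k : ℕ => ((k / 2 : ℕ) : ENNReal)) atTop (𝓝 ⊤) := by
      have h3 : Tendsto (fun k : ℕ => k / 2) atTop atTop :=
        Nat.tendsto_div_const_atTop (by norm_num)
      exact ENNReal.tendsto_nat_nhds_top.comp h3
    refine tendsto_of_tendsto_of_tendsto_of_le_of_le' h2 tendsto_const_nhds ?_
      (Eventually.of_forall (fun _ => le_top))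
    filter_upwards [eventually_ge_atTop 1] with k hk
    refine le_trans ?_ (h1 k hk)
    have h4 : k / 2 ≤ (d - 1) ^ ((k + 3) / 2) - 2 := by
      have h5 : (k + 3) / 2 + 1 ≤ 2 ^ ((k + 3) / 2) := Nat.lt_two_pow_self
      have h6 : 2 ^ ((k + 3) / 2) ≤ (d - 1) ^ ((k + 3) / 2) := Nat.pow_le_pow_left (by omega) _
      omega
    exact_mod_cast h4

end Pool.Agent.Results.MP_f4bed7_co.TreeNets
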